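import Mathlib

/-!
Definitions for the bend-number of graphs (edge intersection graphs of paths on a grid).
-/

namespace Pool.Agent.Lib.MP_fe8c60_co

/-- The planar square grid: vertex set `ℤ²`, edges join points at Euclidean distance `1`. -/
def grid : SimpleGraph (ℤ × ℤ) where
  Adj p q := (p.1 - q.1) ^ 2 + (p.2 - q.2) ^ 2 = 1
  symm := ⟨fun p q h => by linarith [h, sub_sq_comm p.1 q.1, sub_sq_comm p.2 q.2]⟩
  loopless := ⟨fun p h => by simp at h⟩

/-- The number of bends of a walk `P` in the grid, with vertices `v₀, …, v_ℓ` (`ℓ = P.length`):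
the number of interior vertices `v_{i+1}` (`0 ≤ i < ℓ - 1`) such that exactly one of the two edges
`v_i v_{i+1}` and `v_{i+1} v_{i+2}` is horizontal (a grid edge is horizontal iff its two ends have
the same second coordinate, and vertical otherwise). -/
def bends {a b : ℤ × ℤ} (P : grid.Walk a b) : ℕ :=
  ((Finset.range (P.length - 1)).filter fun i =>
    ¬ ((P.getVert i).2 = (P.getVert (i + 1)).2 ↔
        (P.getVert (i + 1)).2 = (P.getVert (i + 2)).2)).card

/-- `G` has a `k`-bend EPG representation: every vertex `v` gets a walk `P v` in the grid (from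
some `s v` to some `t v`) with at most `k` bends, and distinct vertices are adjacent iff their
walks have a grid edge in common. Arbitrary walks are allowed, so every representation by grid
paths (simple or self-crossing) is one of these. -/
def HasEPG {V : Type} (G : SimpleGraph V) (k : ℕ) : Prop :=
  ∃ (s t : V → ℤ × ℤ) (P : ∀ v, grid.Walk (s v) (t v)),
    (∀ v, bends (P v) ≤ k) ∧
      ∀ u v, u ≠ v → (G.Adj u v ↔ ∃ e, e ∈ (P u).edges ∧ e ∈ (P v).edges)

/-- `G` is claw-free: it has no induced subgraph isomorphic to `K_{1,3}`. -/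
def ClawFree {V : Type} (G : SimpleGraph V) : Prop :=
  IsEmpty (completeBipartiteGraph (Fin 1) (Fin 3) ↪g G)

end Pool.Agent.Lib.MP_fe8c60_co
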