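import Pool.Agent.Lib.MP_fe8c60_co.Defs

namespace Pool.Agent.Lib.MP_fe8c60_co

open SimpleGraph

/-- The linear order in which grid edges are placed. -/
abbrev L := ℤ ×ₗ ℤ

/-- Position of the edge `p q` in the linear order: (index of the grid line, place on it). -/
def keyF (p q : ℤ × ℤ) : L :=
  if p.2 = q.2 then toLex (2 * min p.2 q.2, min p.1 q.1)
  else toLex (2 * min p.1 q.1 + 1, min p.2 q.2)

lemma keyF_comm (p q : ℤ × ℤ) : keyF p q = keyF q p := by
  unfold keyF
  by_cases h : p.2 = q.2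
  · rw [if_pos h, if_pos h.symm, min_comm p.2, min_comm p.1]
  · rw [if_neg h, if_neg (fun h' => h h'.symm), min_comm p.2, min_comm p.1]

def key : Sym2 (ℤ × ℤ) → L := Sym2.lift ⟨keyF, keyF_comm⟩

lemma adj_cases {p q : ℤ × ℤ} (h : grid.Adj p q) :
    (p.2 = q.2 ∧ (p.1 = q.1 + 1 ∨ q.1 = p.1 + 1)) ∨
      (p.1 = q.1 ∧ (p.2 = q.2 + 1 ∨ q.2 = p.2 + 1)) := by
  have h' : (p.1 - q.1) ^ 2 + (p.2 - q.2) ^ 2 = 1 := h
  generalize hx : p.1 - q.1 = x at h'
  generalize hy : p.2 - q.2 = y at h'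
  have hx1 : x ≤ 1 := by nlinarith [sq_nonneg y, sq_nonneg (x - 1)]
  have hx2 : -1 ≤ x := by nlinarith [sq_nonneg y, sq_nonneg (x + 1)]
  have hy1 : y ≤ 1 := by nlinarith [sq_nonneg x, sq_nonneg (y - 1)]
  have hy2 : -1 ≤ y := by nlinarith [sq_nonneg x, sq_nonneg (y + 1)]
  interval_cases x <;> interval_cases y <;> simp at h' <;> omega

lemma keyF_inj {p q p' q' : ℤ × ℤ} (h : grid.Adj p q) (h' : grid.Adj p' q')
    (hk : keyF p q = keyF p' q') : s(p, q) = s(p', q') := by
  have c := adj_cases h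
  have c' := adj_cases h'
  obtain ⟨p1, p2⟩ := p
  obtain ⟨q1, q2⟩ := q
  obtain ⟨p1', p2'⟩ := p'
  obtain ⟨q1', q2'⟩ := q'
  simp only [Sym2.eq_iff, Prod.mk.injEq]
  unfold keyF at hk
  simp only at hk c c'
  split_ifs at hk <;> simp only [toLex_inj, Prod.mk.injEq] at hk <;> omega

lemma key_inj {e e' : Sym2 (ℤ × ℤ)} (h : e ∈ grid.edgeSet) (h' : e' ∈ grid.edgeSet)
    (hk : key e = key e') : e = e' := by
  induction e using Sym2.ind with
  | h p q =>
    induction e' using Sym2.ind with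
    | h p' q' => exact keyF_inj h h' hk

/-- Two consecutive edges in the same direction have no position strictly between them. -/
lemma keyF_close {p q r : ℤ × ℤ} (h : grid.Adj p q) (h' : grid.Adj q r)
    (hd : p.2 = q.2 ↔ q.2 = r.2) (x : L) :
    ¬ (keyF p q < x ∧ x < keyF q r) ∧ ¬ (keyF q r < x ∧ x < keyF p q) := by
  have c := adj_cases h
  have c' := adj_cases h'
  obtain ⟨p1, p2⟩ := p
  obtain ⟨q1, q2⟩ := q
  obtain ⟨r1, r2⟩ := r
  obtain ⟨⟨x1, x2⟩, rfl⟩ := toLex.surjective x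
  unfold keyF
  simp only at hd c c' ⊢
  split_ifs <;> simp only [Prod.Lex.toLex_lt_toLex] <;> omega

lemma bends_nil (a : ℤ × ℤ) : bends (Walk.nil : grid.Walk a a) = 0 := by
  simp [bends]

lemma bends_cons_cons {a b c d : ℤ × ℤ} (h : grid.Adj a b) (h' : grid.Adj b c)
    (P : grid.Walk c d) :
    bends (Walk.cons h (Walk.cons h' P)) =
      bends (Walk.cons h' P) + if (a.2 = b.2 ↔ b.2 = c.2) then 0 else 1 := by
  unfold bends
  simp only [Walk.length_cons, Nat.add_sub_cancel, Finset.card_filter]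
  rw [Finset.sum_range_succ']
  congr 1
  simp only [Walk.getVert_zero, zero_add, Walk.getVert_cons_succ]
  split_ifs <;> rfl

/-- The edges of a nonempty walk with `j` bends occupy at most `j + 1` intervals. -/
lemma cover_cons {b d : ℤ × ℤ} (P : grid.Walk b d) :
    ∀ {a : ℤ × ℤ} (h : grid.Adj a b), ∃ (I : L × L) (T : List (L × L)),
      T.length ≤ bends (Walk.cons h P) ∧ I.1 ≤ keyF a b ∧ keyF a b ≤ I.2 ∧
      ∀ x, (∃ e ∈ (Walk.cons h P).edges, key e = x) ↔ ∃ J ∈ I :: T, J.1 ≤ x ∧ x ≤ J.2 := by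
  induction P with
  | nil =>
    intro a h
    refine ⟨(keyF a _, keyF a _), [], by simp, le_rfl, le_rfl, fun x => ?_⟩
    simp only [Walk.edges_cons, Walk.edges_nil, List.mem_singleton, exists_eq_left]
    constructor
    · rintro rfl
      exact ⟨le_rfl, le_rfl⟩
    · rintro ⟨h1, h2⟩
      exact le_antisymm h1 h2
  | @cons b c d h' P ih =>
    intro a h
    obtain ⟨I, T, hT, hI1, hI2, hx⟩ := ih h'
    have hsplit : ∀ x, (∃ e ∈ (Walk.cons h (Walk.cons h' P)).edges, key e = x) ↔
        keyF a b = x ∨ ∃ e ∈ (Walk.cons h' P).edges, key e = x := by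
      intro x
      rw [Walk.edges_cons h]
      simp only [List.mem_cons, exists_eq_or_imp]
      rfl
    by_cases hd : (a.2 = b.2 ↔ b.2 = c.2)
    · refine ⟨(min I.1 (keyF a b), max I.2 (keyF a b)), T, ?_, min_le_right _ _,
        le_max_right _ _, fun x => ?_⟩
      · rw [bends_cons_cons, if_pos hd]
        exact hT
      · rw [hsplit, hx]
        simp only [List.mem_cons, exists_eq_or_imp]
        have hc := keyF_close h h' hd x
        constructor
        · rintro (rfl | ⟨h1, h2⟩ | hr)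
          · exact Or.inl ⟨min_le_right _ _, le_max_right _ _⟩
          · exact Or.inl ⟨(min_le_left _ _).trans h1, h2.trans (le_max_left _ _)⟩
          · exact Or.inr hr
        · rintro (⟨h1, h2⟩ | hr)
          · by_cases he : keyF a b = x
            · exact Or.inl he
            · refine Or.inr (Or.inl ⟨?_, ?_⟩)
              · by_contra hlt
                push Not at hlt
                rcases min_le_iff.1 h1 with h3 | h3
                · exact absurd h3 (not_le.2 hlt)
                · exact hc.1 ⟨lt_of_le_of_ne h3 he, hlt.trans_le hI1⟩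
              · by_contra hlt
                push Not at hlt
                rcases le_max_iff.1 h2 with h3 | h3
                · exact absurd h3 (not_le.2 hlt)
                · exact hc.2 ⟨hI2.trans_lt hlt, lt_of_le_of_ne h3 (Ne.symm he)⟩
          · exact Or.inr (Or.inr hr)
    · refine ⟨(keyF a b, keyF a b), I :: T, ?_, le_rfl, le_rfl, fun x => ?_⟩
      · rw [bends_cons_cons, if_neg hd, List.length_cons]
        omega
      · rw [hsplit, hx]
        constructor
        · rintro (rfl | ⟨J, hJ, h1⟩)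
          · exact ⟨_, List.mem_cons_self, le_rfl, le_rfl⟩
          · exact ⟨J, List.mem_cons_of_mem _ hJ, h1⟩
        · rintro ⟨J, hJ, h1, h2⟩
          rcases List.mem_cons.1 hJ with rfl | hJ
          · exact Or.inl (le_antisymm h1 h2)
          · exact Or.inr ⟨J, hJ, h1, h2⟩

/-- The edges of a walk with at most `k` bends occupy `k + 1` (possibly empty) intervals. -/
lemma cover {a b : ℤ × ℤ} (P : grid.Walk a b) {k : ℕ} (hk : bends P ≤ k) :
    ∃ lo hi : Fin (k + 1) → L,
      ∀ x, (∃ e ∈ P.edges, key e = x) ↔ ∃ j, lo j ≤ x ∧ x ≤ hi j := by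
  cases P with
  | nil =>
    refine ⟨fun _ => toLex (1, 0), fun _ => toLex (0, 0), fun x => ?_⟩
    simp only [Walk.edges_nil, List.not_mem_nil, false_and, exists_false, false_iff]
    rintro ⟨j, h1, h2⟩
    have := h1.trans h2
    simp [Prod.Lex.toLex_le_toLex] at this
  | cons h P =>
    obtain ⟨I, T, hT, -, -, hx⟩ := cover_cons P h
    refine ⟨fun j => ((I :: T).getD j I).1, fun j => ((I :: T).getD j I).2, fun x => ?_⟩
    rw [hx]
    constructor
    · rintro ⟨J, hJ, h1⟩
      obtain ⟨i, hi, rfl⟩ := List.getElem_of_mem hJ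
      have hi' : i < k + 1 := by
        rw [List.length_cons] at hi
        omega
      refine ⟨⟨i, hi'⟩, ?_⟩
      simpa only [List.getD_eq_getElem _ _ hi] using h1
    · rintro ⟨j, h1⟩
      refine ⟨(I :: T).getD j I, ?_, h1⟩
      by_cases hj : (j : ℕ) < (I :: T).length
      · rw [List.getD_eq_getElem _ _ hj]
        exact List.getElem_mem hj
      · rw [List.getD_eq_default _ _ (not_lt.1 hj)]
        exact List.mem_cons_self

/-- Lower cuts of a finite family are determined by their size. -/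
lemma cut_eq {J : Type} [Fintype J] (f : J → L) (x y : L)
    (h : (Finset.univ.filter fun j => f j < x).card = (Finset.univ.filter fun j => f j < y).card)
    (j : J) : f j < x ↔ f j < y := by
  wlog hxy : x ≤ y generalizing x y
  · exact (this y x h.symm (le_of_not_ge hxy)).symm
  have hs : (Finset.univ.filter fun j => f j < x) ⊆ (Finset.univ.filter fun j => f j < y) := by
    intro i hi
    simp only [Finset.mem_filter, Finset.mem_univ, true_and] at hi ⊢
    exact hi.trans_le hxy
  have he := Finset.eq_of_subset_of_card_le hs h.ge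
  have := Finset.ext_iff.1 he j
  simpa using this

lemma cut_eq' {J : Type} [Fintype J] (f : J → L) (x y : L)
    (h : (Finset.univ.filter fun j => f j ≤ x).card = (Finset.univ.filter fun j => f j ≤ y).card)
    (j : J) : f j ≤ x ↔ f j ≤ y := by
  wlog hxy : x ≤ y generalizing x y
  · exact (this y x h.symm (le_of_not_ge hxy)).symm
  have hs : (Finset.univ.filter fun j => f j ≤ x) ⊆ (Finset.univ.filter fun j => f j ≤ y) := by
    intro i hi
    simp only [Finset.mem_filter, Finset.mem_univ, true_and] at hi ⊢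
    exact hi.trans hxy
  have he := Finset.eq_of_subset_of_card_le hs h.ge
  have := Finset.ext_iff.1 he j
  simpa using this

/-- Counting: if unions of `K` intervals cut out every subset of `m` fixed unions of `K`
intervals, then `2 ^ m ≤ (2 (m K + 1) ^ 2) ^ K`. -/
lemma count (m K : ℕ) (lo hi : Fin m → Fin K → L) (lo' hi' : Finset (Fin m) → Fin K → L)
    (H : ∀ (a : Fin m) (S : Finset (Fin m)), a ∈ S ↔
      ∃ x, (∃ j, lo a j ≤ x ∧ x ≤ hi a j) ∧ ∃ j, lo' S j ≤ x ∧ x ≤ hi' S j) :
    2 ^ m ≤ (2 * (m * K + 1) ^ 2) ^ K := by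
  classical
  have hcard : ∀ p : Fin m × Fin K → Prop, ∀ [DecidablePred p],
      (Finset.univ.filter p).card < m * K + 1 := by
    intro p _
    have := Finset.card_filter_le (Finset.univ : Finset (Fin m × Fin K)) p
    simp only [Finset.card_univ, Fintype.card_prod, Fintype.card_fin] at this
    omega
  let code : Finset (Fin m) → Fin K → Prop × Fin (m * K + 1) × Fin (m * K + 1) := fun S j =>
    (lo' S j ≤ hi' S j,
      ⟨(Finset.univ.filter fun q : Fin m × Fin K => hi q.1 q.2 < lo' S j).card, hcard _⟩,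
      ⟨(Finset.univ.filter fun q : Fin m × Fin K => lo q.1 q.2 ≤ hi' S j).card, hcard _⟩)
  have hsub : ∀ S S', code S = code S' → ∀ a, a ∈ S → a ∈ S' := by
    intro S S' hc a ha
    obtain ⟨x, ⟨i, hi1, hi2⟩, j, hj1, hj2⟩ := (H a S).1 ha
    have hcj := congrFun hc j
    simp only [code, Prod.mk.injEq, Fin.mk.injEq, eq_iff_iff] at hcj
    obtain ⟨h1, h2, h3⟩ := hcj
    have g1 : lo' S' j ≤ hi' S' j := h1.1 (hj1.trans hj2)
    have g2 : lo' S' j ≤ hi a i := by
      have := cut_eq (fun q : Fin m × Fin K => hi q.1 q.2) _ _ h2 (a, i)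
      exact not_lt.1 fun hlt => absurd (this.2 hlt) (not_lt.2 (hj1.trans hi2))
    have g3 : lo a i ≤ hi' S' j :=
      (cut_eq' (fun q : Fin m × Fin K => lo q.1 q.2) _ _ h3 (a, i)).1 (hi1.trans hj2)
    refine (H a S').2 ⟨max (lo a i) (lo' S' j), ⟨i, le_max_left _ _, ?_⟩, j, le_max_right _ _, ?_⟩
    · exact max_le (hi1.trans hi2) g2
    · exact max_le g3 g1
  have hinj : Function.Injective code := fun S S' hc =>
    Finset.ext fun a => ⟨hsub S S' hc a, hsub S' S hc.symm a⟩
  have := Fintype.card_le_of_injective code hinj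
  simpa [Fintype.card_finset, Fintype.card_fun, sq] using this

lemma exists_large (K : ℕ) : ∃ m : ℕ, (2 * (m * K + 1) ^ 2) ^ K < 2 ^ m := by
  refine ⟨2 ^ (2 * K + 4), ?_⟩
  have hK : K < 2 ^ K := Nat.lt_two_pow_self
  have h1 : 2 ^ (2 * K + 4) * K + 1 ≤ 2 ^ (3 * K + 4) := by
    have : 2 ^ (3 * K + 4) = 2 ^ (2 * K + 4) * 2 ^ K := by ring
    rw [this]
    have hpos : 1 ≤ 2 ^ (2 * K + 4) := Nat.one_le_two_pow
    calc 2 ^ (2 * K + 4) * K + 1 ≤ 2 ^ (2 * K + 4) * K + 2 ^ (2 * K + 4) := by omega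
      _ = 2 ^ (2 * K + 4) * (K + 1) := by ring
      _ ≤ 2 ^ (2 * K + 4) * 2 ^ K := Nat.mul_le_mul_left _ hK
  have h2 : (2 * (2 ^ (2 * K + 4) * K + 1) ^ 2) ^ K ≤ 2 ^ ((6 * K + 9) * K) := by
    calc (2 * (2 ^ (2 * K + 4) * K + 1) ^ 2) ^ K ≤ (2 * (2 ^ (3 * K + 4)) ^ 2) ^ K := by gcongr
      _ = 2 ^ ((6 * K + 9) * K) := by
        rw [pow_mul 2 (6 * K + 9) K]
        congr 1
        ring
  refine h2.trans_lt (Nat.pow_lt_pow_right (by norm_num) ?_)
  have : 2 ^ (2 * K + 4) = 16 * (2 ^ K) ^ 2 := by ring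
  rw [this]
  nlinarith

/-- The co-bipartite graph with cliques `Fin m` and `Finset (Fin m)`, joined by membership. -/
def G (m : ℕ) : SimpleGraph (Fin m ⊕ Finset (Fin m)) where
  Adj u v := match u, v with
    | .inl a, .inl b => a ≠ b
    | .inr S, .inr T => S ≠ T
    | .inl a, .inr S => a ∈ S
    | .inr S, .inl a => a ∈ S
  symm := ⟨by
    rintro (a | S) (b | T) h
    · exact Ne.symm h
    · exact h
    · exact h
    · exact Ne.symm h⟩
  loopless := ⟨by
    rintro (a | S) h
    · exact h rfl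
    · exact h rfl⟩

lemma G_adj_of_side (m : ℕ) (u v : Fin m ⊕ Finset (Fin m)) (h : u ≠ v)
    (hs : u.isLeft = v.isLeft) : (G m).Adj u v := by
  rcases u with a | S <;> rcases v with b | T
  · exact fun hab => h (congrArg _ hab)
  · simp at hs
  · simp at hs
  · exact fun hab => h (congrArg _ hab)

lemma G_clawFree (m : ℕ) : ClawFree (G m) := by
  refine ⟨fun f => ?_⟩
  have hne : ∀ i j : Fin 3, i ≠ j → (f (.inr i)).isLeft ≠ (f (.inr j)).isLeft := by
    intro i j hij hs
    have h1 : f (.inr i) ≠ f (.inr j) := fun h => hij (Sum.inr.inj (f.injective h))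
    have h2 := f.map_adj_iff.1 (G_adj_of_side m _ _ h1 hs)
    simp at h2
  have h01 := hne 0 1 (by decide)
  have h02 := hne 0 2 (by decide)
  have h12 := hne 1 2 (by decide)
  revert h01 h02 h12
  cases (f (.inr 0)).isLeft <;> cases (f (.inr 1)).isLeft <;> cases (f (.inr 2)).isLeft <;> simp

lemma G_not_hasEPG (k : ℕ) : ∃ m, ¬ HasEPG (G m) k := by
  obtain ⟨m, hm⟩ := exists_large (k + 1)
  refine ⟨m, ?_⟩
  rintro ⟨s, t, P, hb, hadj⟩
  choose lo hi hx using fun v => cover (P v) (hb v)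
  refine absurd (count m (k + 1) (fun a => lo (.inl a)) (fun a => hi (.inl a))
    (fun S => lo (.inr S)) (fun S => hi (.inr S)) fun a S => ?_) (not_le.2 hm)
  have h1 : (G m).Adj (.inl a) (.inr S) ↔ a ∈ S := Iff.rfl
  rw [← h1, hadj _ _ (by simp)]
  constructor
  · rintro ⟨e, he1, he2⟩
    exact ⟨key e, (hx _ _).1 ⟨e, he1, rfl⟩, (hx _ _).1 ⟨e, he2, rfl⟩⟩
  · rintro ⟨x, h1, h2⟩
    obtain ⟨e, he, hk⟩ := (hx _ _).2 h1
    obtain ⟨e', he', hk'⟩ := (hx _ _).2 h2
    have := key_inj ((P _).edges_subset_edgeSet he) ((P _).edges_subset_edgeSet he')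
      (hk.trans hk'.symm)
    exact ⟨e, he, this ▸ he'⟩

theorem main (k : ℕ) : ∃ (n : ℕ) (H : SimpleGraph (Fin n)), ClawFree H ∧ ¬ HasEPG H k := by
  obtain ⟨m, hm⟩ := G_not_hasEPG k
  let e := (Fintype.equivFin (Fin m ⊕ Finset (Fin m))).symm
  refine ⟨_, (G m).comap e, ⟨fun f => ?_⟩, ?_⟩
  · exact (G_clawFree m).false ((Embedding.comap e.toEmbedding (G m)).comp f)
  · rintro ⟨s, t, P, hb, hadj⟩
    refine hm ⟨fun v => s (e.symm v), fun v => t (e.symm v), fun v => P (e.symm v),
      fun v => hb _, fun u v huv => ?_⟩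
    rw [← hadj _ _ (fun h => huv (e.symm.injective h))]
    simp

end Pool.Agent.Lib.MP_fe8c60_co
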